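import Pool.Agent.H.MP_68674a_lc.C
import Pool.Agent.Lib.lead.CXGraphRed

namespace Pool.Agent.Results.MP_68674a_lc.Dich
open Pool.Agent.Lib.CX Pool.Agent.H.MP_68674a_lc Function

def mt (I c : List (List ℕ)) (a : ℕ) : Option ℕ := if a < I.length then (c.getD a []).head? else none
def Pf (I c : List (List ℕ)) (a y : ℕ) : Prop :=
  y ∈ pl I a ∧ ∀ z ∈ (mt I c a).toList, (pl I a).idxOf y < (pl I a).idxOf z
instance (I c a y) : Decidable (Pf I c a y) := by unfold Pf; infer_instance
def Mt (I c : List (List ℕ)) : Prop := ∀ a < I.length, ∀ x ∈ (mt I c a).toList, mt I c x = some a ∧ x ∈ pl I a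
instance (I c) : Decidable (Mt I c) := by unfold Mt; infer_instance

theorem pf_iff {I c a y} : Pf I c a y ↔ Pref (pl I) (mt I c) a y := by simp [Pf, Pref]
theorem mt_iff {I c} : Mt I c ↔ IsM (pl I) (mt I c) :=
  ⟨fun h a x e => h a (by by_contra h; simp [mt, h] at e) x (by simpa using e), fun h a _ x e => h a x (by simpa using e)⟩

theorem cert {L I m} (hI : Valid L I) (h : IsM (pl I) m) :
    ∃ c, size c ≤ I.length * (3 * I.length + 6) + 2 ∧ mt I c = m := by
  refine ⟨(List.range I.length).map fun a => (m a).toList, ?_, funext fun a => ?_⟩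
  · refine (size_list_le (B := 3 * I.length + 5) fun x hx => ?_).trans (by simp)
    obtain ⟨a, -, rfl⟩ := List.mem_map.1 hx
    rcases e : m a with _ | x
    · exact (size_list_le (B := 0) (by simp)).trans (by simp)
    · have := (pl_lt hI (h a x e).2).2
      have := size_nat_le x
      exact (size_list_le (B := size x) (by simp)).trans (by simp; omega)
  · unfold mt
    split_ifs with ha
    · simp [ha]
    · rcases e : m a with _ | x
      · rfl
      · exact (ha (pl_lt hI (h a x e).2).1).elim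

theorem pt_pf : PT fun q : List (List ℕ) × List (List ℕ) × ℕ × ℕ => decide (Pf q.1 q.2.1 q.2.2.1 q.2.2.2) := by
  unfold Pf mt pl; fun_prop
@[fun_prop] theorem pt_pf' {α : Type} [Enc α] {I c : α → List (List ℕ)} {a y : α → ℕ} (h1 : PT I) (h2 : PT c)
    (h3 : PT a) (h4 : PT y) {i : ∀ x, Decidable (Pf (I x) (c x) (a x) (y x))} :
    PT fun x => @decide (Pf (I x) (c x) (a x) (y x)) (i x) :=
  (pt_pf.comp (g := fun x => (I x, c x, a x, y x)) (by fun_prop)).congr fun _ => by congr
theorem pt_mt : PT fun q : List (List ℕ) × List (List ℕ) => decide (Mt q.1 q.2) := by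
  unfold Mt mt pl; fun_prop

attribute [local irreducible] Pf Mt

theorem np3 (L : ℕ) : InNP fun I : {I // Valid L I} => CS 3 (pl I.1) := by
  have h0 : PT fun q : {I // Valid L I} × List (List ℕ) => decide (Mt q.1.1 q.2) :=
    pt_mt.comp (g := fun q : {I // Valid L I} × List (List ℕ) => (q.1.1, q.2)) (by fun_prop)
  refine InNP.of_cert' (fun I (c : List (List ℕ)) => Mt I.1 c ∧ ∀ a < I.1.length, ∀ y ∈ pl I.1 a, Pf I.1 c a y →
    ¬ Pf I.1 c y a ∧ ∀ z ∈ pl I.1 y, Pf I.1 c y z → ¬ Pf I.1 c z a)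
    (fun I => I.1.length * (3 * I.1.length + 6) + 2) (by unfold pl; fun_prop) (by fun_prop) ?_ ?_
  · rintro I c ⟨h1, h2⟩
    simp only [pf_iff] at h2
    refine ⟨_, mt_iff.1 h1, fun k k1 k2 ⟨a, _, ha⟩ => ?_⟩
    have k3 : k ≤ 3 := by exact_mod_cast k2
    have h3 := ha 0 (by omega)
    have h4 := ha 1 (by omega)
    interval_cases k
    · exact (h2 _ (pl_lt I.2 h3.1).1 _ h3.1 h3).1 h4
    · exact (h2 _ (pl_lt I.2 h3.1).1 _ h3.1 h3).2 _ h4.1 h4 (ha 2 (by omega))
  · rintro I ⟨m, h1, h2⟩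
    obtain ⟨c, hc, rfl⟩ := cert I.2 h1
    have ne : ∀ {a y}, Pref (pl I.1) (mt I.1 c) a y → a ≠ y := fun h e => (I.2 _).2.1 (e ▸ h.1)
    simp only [pf_iff]
    exact ⟨c, hc, mt_iff.2 h1, fun a _ y _ h => ⟨fun h' => h2 2 le_rfl (by norm_num) (blk2 (ne h) h h'),
      fun z _ h' h'' => h2 3 (by omega) le_rfl (blk3 (ne h) (ne h') (ne h'') h h' h'')⟩⟩

theorem npT (L : ℕ) : InNP fun I : {I // Valid L I} => CS ⊤ (pl I.1) := by
  have h0 : PT fun q : {I // Valid L I} × List (List ℕ) × List ℕ => decide (Mt q.1.1 q.2.1) :=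
    pt_mt.comp (g := fun q : {I // Valid L I} × List (List ℕ) × List ℕ => (q.1.1, q.2.1)) (by fun_prop)
  refine InNP.of_cert' (fun I (c : List (List ℕ) × List ℕ) => Mt I.1 c.1 ∧ ∀ a < I.1.length, ∀ y ∈ pl I.1 a,
    Pf I.1 c.1 a y → c.2.getD y 0 < c.2.getD a 0)
    (fun I => 2 * (I.1.length * (3 * I.1.length + 6) + 2) + 1) (by unfold pl; fun_prop) (by fun_prop) ?_ ?_
  · rintro I c ⟨h1, h2⟩
    exact ⟨_, mt_iff.1 h1, fun k k1 _ => no_blk (fun a => c.2.getD a 0)
      (fun a y h => h2 a (pl_lt I.2 h.1).1 y h.1 (pf_iff.2 h)) k1⟩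
  · rintro I ⟨m, h1, h2⟩
    classical
    obtain ⟨c, hc, rfl⟩ := cert I.2 h1
    let s := fun a => (Finset.range I.1.length).filter (Relation.TransGen (Pref (pl I.1) (mt I.1 c)) a)
    refine ⟨(c, (List.range I.1.length).map fun a => (s a).card), ?_, mt_iff.2 h1, fun a ha y hy h => ?_⟩
    · have := size_list_le (l := (List.range I.1.length).map fun a => (s a).card) (B := 3 * I.1.length + 5)
        fun x hx => by
          obtain ⟨a, -, rfl⟩ := List.mem_map.1 hx
          have : (s a).card ≤ I.1.length := by simpa using Finset.card_filter_le (Finset.range I.1.length) _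
          have := size_nat_le (s a).card
          omega
      rw [size_pair]; simp only [List.length_map, List.length_range, add_assoc, Nat.reduceAdd] at this ⊢; omega
    · have y1 := (pl_lt I.2 hy).2
      rw [pf_iff] at h
      have : s y ⊂ s a := ⟨fun z hz => by simp only [s, Finset.mem_filter] at *; exact ⟨hz.1, .head h hz.2⟩,
        fun hs => acyc (fun a => (I.2 a).2.1) (fun k hk => h2 k hk le_top) y
          (Finset.mem_filter.1 (hs (Finset.mem_filter.2 ⟨by simpa, .single h⟩))).2⟩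
      simpa [ha, y1] using Finset.card_lt_card this

def en (v : T) : ℕ := Nat.pair v.1 (Nat.pair v.2.1 v.2.2)
def enE : T ≃ ℕ := (Equiv.prodCongr (Equiv.refl ℕ) Nat.pairEquiv).trans Nat.pairEquiv
def lt (φ : List (Cl3 ℕ)) (s : ℕ) : ℕ × Bool :=
  ((litOf (φ.getD (s / 3) ((0, true), (0, true), (0, true)), s % 3)).1 % (3 * φ.length),
    (litOf (φ.getD (s / 3) ((0, true), (0, true), (0, true)), s % 3)).2)
def vs (φ : List (Cl3 ℕ)) : List T := List.range 6 ×ˢ List.range (3 * φ.length) ×ˢ List.range (3 * φ.length)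
def red (φ : List (Cl3 ℕ)) : List (List ℕ) := (List.range (((3 * φ.length + 6) ^ 2 + 1) ^ 2)).map fun a =>
  ((vs φ).filter fun v => en v = a).flatMap fun v => (gp (3 * φ.length) (lt φ v.2.2) v).map en

theorem pl_red (φ : List (Cl3 ℕ)) (v : T) : pl (red φ) (enE v) = (G φ.length (lt φ) v).map enE := by
  have e : en = enE := rfl
  by_cases h : v ∈ vs φ
  · have h1 : enE v < ((3 * φ.length + 6) ^ 2 + 1) ^ 2 := by
      obtain ⟨t, x, s⟩ := v
      simp only [vs, List.mem_product, List.mem_range] at h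
      have h2 : Nat.pair x s < (3 * φ.length + 6) ^ 2 :=
        (Nat.pair_lt_max_add_one_sq x s).trans_le (Nat.pow_le_pow_left (by omega) _)
      have h3 : t ≤ (3 * φ.length + 6) ^ 2 := by nlinarith
      exact (Nat.pair_lt_max_add_one_sq t (Nat.pair x s)).trans_le (Nat.pow_le_pow_left (by omega) _)
    have h2 : (vs φ).filter (fun w => w = v) = [v] := by
      rw [List.filter_eq, List.count_eq_one_of_mem (l := vs φ) (List.nodup_range.product
        (List.nodup_range.product List.nodup_range)) h]; rfl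
    simp [pl, red, h1, e, h2]
  · have h1 : G φ.length (lt φ) v = [] := by
      obtain ⟨t, x, s⟩ := v
      simp only [vs, List.mem_product, List.mem_range] at h
      simp only [G, gp]; split_ifs <;> first | rfl | omega
    have h2 : (vs φ).filter (fun w => w = v) = [] := List.filter_eq_nil_iff.2 fun w hw => by
      rintro e; exact h (of_decide_eq_true e ▸ hw)
    by_cases h3 : enE v < ((3 * φ.length + 6) ^ 2 + 1) ^ 2 <;> simp [pl, red, h1, e, h2, h3]

theorem lt_lt (φ : List (Cl3 ℕ)) : ∀ s < 3 * φ.length, (lt φ s).1 < 3 * φ.length :=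
  fun _ h => Nat.mod_lt _ (by omega)

theorem pt_red : PT red := by
  have h1 : PT fun q : List (Cl3 ℕ) × ℕ => lt q.1 q.2 := by unfold lt litOf; fun_prop
  have h2 : PT fun q : ℕ × (ℕ × Bool) × T => gp q.1 q.2.1 q.2.2 := by unfold gp nx pv sc pd; fun_prop
  have h3 : PT fun q : (List (Cl3 ℕ) × ℕ) × T => gp (3 * q.1.1.length) (lt q.1.1 q.2.2.2) q.2 :=
    h2.comp (g := fun q : (List (Cl3 ℕ) × ℕ) × T => (3 * q.1.1.length, lt q.1.1 q.2.2.2, q.2)) (by fun_prop)
  have h4 : PT en := by unfold en; fun_prop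
  have h5 : PT vs := by unfold vs; fun_prop
  unfold red; fun_prop

theorem hard {L : ℕ} (hL : 3 ≤ L) {b : ℕ∞} (hb : 3 ≤ b) : NPHard fun I : {I // Valid L I} => CS b (pl I.1) := by
  refine NPHard.of_sat3 _ (pt_red.subtype fun φ a => ?_) fun φ hφ => ?_
  · obtain ⟨a, rfl⟩ := enE.surjective a
    obtain ⟨h1, h2, h3, h4⟩ := gvalid (lt_lt φ) a
    rw [pl_red]
    refine ⟨h1.map enE.injective, by simpa using h2, by simpa using h3.trans hL, fun c hc => ?_⟩
    obtain ⟨c, hc', rfl⟩ := List.mem_map.1 hc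
    simpa [pl_red] using h4 c hc'
  have e : Sat3 φ ↔ ∃ v : ℕ → Bool, ∀ j < φ.length, ∃ s < 3 * φ.length, s / 3 = j ∧ v (lt φ s).1 = (lt φ s).2 := by
    refine exists_congr fun v => (List.forall_mem_iff_forall_getElem ..).trans (forall₂_congr fun j hj => ?_)
    have e : ∀ k < 3, lt φ (3 * j + k) = litOf (φ[j], k) := fun k hk => by
      have : (litOf (φ[j], k)).1 < 3 * φ.length := hφ _ (List.getElem_mem hj) _ (by
        interval_cases k <;> simp [litOf, Cl3.vars])
      simp [lt, show (3 * j + k) / 3 = j by omega, show (3 * j + k) % 3 = k by omega, hj, Nat.mod_eq_of_lt this]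
    rw [ok_iff]
    exact ⟨fun ⟨k, hk, h⟩ => ⟨3 * j + k, by omega, by omega, by rw [e k hk, h]⟩, fun ⟨s, _, h1, h⟩ =>
      ⟨s % 3, by omega, by rw [← e _ (by omega), show 3 * j + s % 3 = s by omega, h]⟩⟩
  rw [e]
  refine ⟨fun ⟨v, h⟩ => (complete (lt_lt φ) v b h).equiv enE (pl_red φ), fun h => sound (lt_lt φ) ?_⟩
  obtain ⟨m, h1, h2⟩ := h.equiv (q := G φ.length (lt φ)) enE.symm fun a => by
    obtain ⟨a, rfl⟩ := enE.surjective a
    simp [pl_red]
  exact ⟨m, h1, fun k k1 k2 => h2 k k1 (k2.trans hb)⟩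

theorem result (L : ℕ) (b : ℕ∞) (hb : b = ⊤ ∨ b = 3) :
    (L ≤ 2 → InP fun I : {I // Valid L I} => CS b (pl I.1)) ∧
    (3 ≤ L → NPComplete fun I : {I // Valid L I} => CS b (pl I.1)) := by
  rcases hb with rfl | rfl
  · exact ⟨fun h => inP h le_top, fun h => ⟨npT L, hard h le_top⟩⟩
  · exact ⟨fun h => inP h (by norm_num), fun h => ⟨np3 L, hard h le_rfl⟩⟩

end Pool.Agent.Results.MP_68674a_lc.Dich
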